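import Pool.Agent.H48.ER.Targets

/-!
Attachments to an even prism: two adjacent pairs.
-/

set_option autoImplicit false
set_option linter.unusedVariables false

open Pool.Agent.H48.ER

namespace Pool.Agent.H74.ER

/-- the configuration: a prism, a path outside and two adjacent pairs of attachments -/
structure Cf {V : Type} (G : SimpleGraph V) (a b : Fin 3 → V) (n : Fin 3 → ℕ)
    (P : Fin 3 → Set V) (i j : Fin 3) (l : ℕ) (d d' : V) (R : Set V)
    (al al1 : ℕ) (g g' : V) (R1 R2 : Set V) (be be1 : ℕ) (h h' : V) (T1 T2 : Set V) : Prop where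
  pr : Prism G a b n P
  ij : i ≠ j
  ipR : IP G l d d' R
  out : ∀ r ∈ R, r ∉ ver P
  att : ∀ r ∈ R, ∀ w ∈ ver P, G.Adj r w → (r = d ∧ w ∈ P i) ∨ (r = d' ∧ w ∈ P j)
  ip1 : IP G al (a i) g R1
  ip2 : IP G al1 g' (b i) R2
  len : al + al1 + 1 = n i
  un : R1 ∪ R2 = P i
  dj : Disjoint R1 R2
  xe : XE G R1 R2 g g'
  nb : ∀ w ∈ P i, G.Adj d w ↔ w = g ∨ w = g'
  jp1 : IP G be (a j) h T1
  jp2 : IP G be1 h' (b j) T2
  lenj : be + be1 + 1 = n j
  unj : T1 ∪ T2 = P j
  djj : Disjoint T1 T2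
  xej : XE G T1 T2 h h'
  nbj : ∀ w ∈ P j, G.Adj d' w ↔ w = h ∨ w = h'

variable {V : Type} {G : SimpleGraph V} {a b : Fin 3 → V} {n : Fin 3 → ℕ}
  {P : Fin 3 → Set V} {i j k : Fin 3} {l : ℕ} {d d' : V} {R : Set V} {al al1 : ℕ} {g g' : V}
  {R1 R2 : Set V} {be be1 : ℕ} {h h' : V} {T1 T2 : Set V}

namespace Cf

theorem swap (c : Cf G a b n P i j l d d' R al al1 g g' R1 R2 be be1 h h' T1 T2) :
    Cf G a b n P j i l d' d R be be1 h h' T1 T2 al al1 g g' R1 R2 where
  pr := c.pr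
  ij := c.ij.symm
  ipR := c.ipR.rev
  out := c.out
  att r hr w hw hA := (c.att r hr w hw hA).symm
  ip1 := c.jp1
  ip2 := c.jp2
  len := c.lenj
  un := c.unj
  dj := c.djj
  xe := c.xej
  nb := c.nbj
  jp1 := c.ip1
  jp2 := c.ip2
  lenj := c.len
  unj := c.un
  djj := c.dj
  xej := c.xe
  nbj := c.nb

variable (c : Cf G a b n P i j l d d' R al al1 g g' R1 R2 be be1 h h' T1 T2)

include c

theorem s1 {w : V} (hw : w ∈ R1) : w ∈ P i := by rw [← c.un]; exact Or.inl hw

theorem s2 {w : V} (hw : w ∈ R2) : w ∈ P i := by rw [← c.un]; exact Or.inr hw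

theorem n12 {u w : V} (hu : u ∈ R1) (hw : w ∈ R2) : u ≠ w := fun e =>
  Set.disjoint_left.1 c.dj hu (e ▸ hw)

/-- a vertex of `R` is not a vertex of the prism -/
theorem nR {u w : V} {s : Fin 3} (hu : u ∈ R) (hw : w ∈ P s) : u ≠ w := fun e =>
  c.out u hu (e ▸ mem_ver hw)

theorem adjR1 {r w : V} (hr : r ∈ R) (hw : w ∈ R1) : G.Adj r w ↔ r = d ∧ w = g := by
  constructor
  · intro hA
    rcases c.att r hr w (mem_ver (c.s1 hw)) hA with ⟨e, _⟩ | ⟨_, e⟩
    · subst e
      refine ⟨rfl, ?_⟩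
      rcases (c.nb w (c.s1 hw)).1 hA with e | e
      · exact e
      · exact absurd e (c.n12 hw c.ip2.left_mem)
    · exact absurd (c.pr.rung (c.s1 hw) e) c.ij
  · rintro ⟨e1, e2⟩
    subst e1
    exact (c.nb w (c.s1 hw)).2 (Or.inl e2)

theorem adjR2 {r w : V} (hr : r ∈ R) (hw : w ∈ R2) : G.Adj r w ↔ r = d ∧ w = g' := by
  constructor
  · intro hA
    rcases c.att r hr w (mem_ver (c.s2 hw)) hA with ⟨e, _⟩ | ⟨_, e⟩
    · subst e
      refine ⟨rfl, ?_⟩
      rcases (c.nb w (c.s2 hw)).1 hA with e | e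
      · exact absurd e.symm (c.n12 c.ip1.right_mem hw)
      · exact e
    · exact absurd (c.pr.rung (c.s2 hw) e) c.ij
  · rintro ⟨e1, e2⟩
    subst e1
    exact (c.nb w (c.s2 hw)).2 (Or.inr e2)

theorem adjRk (hik : i ≠ k) (hjk : j ≠ k) {r w : V} (hr : r ∈ R) (hw : w ∈ P k) :
    ¬ G.Adj r w := by
  intro hA
  rcases c.att r hr w (mem_ver hw) hA with ⟨_, e⟩ | ⟨_, e⟩
  · exact hik (c.pr.rung e hw)
  · exact hjk (c.pr.rung e hw)

theorem a1 : a i ∈ R1 := c.ip1.left_mem

theorem b2 : b i ∈ R2 := c.ip2.right_mem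

theorem adj1k (hik : i ≠ k) {u w : V} (hu : u ∈ R1) (hw : w ∈ P k) :
    G.Adj u w ↔ u = a i ∧ w = a k := by
  rw [c.pr.adj i k hik u (c.s1 hu) w hw]
  constructor
  · rintro (e | e)
    · exact e
    · exact absurd e.1 (c.n12 hu c.b2)
  · exact Or.inl

theorem adj2k (hik : i ≠ k) {u w : V} (hu : u ∈ R2) (hw : w ∈ P k) :
    G.Adj u w ↔ u = b i ∧ w = b k := by
  rw [c.pr.adj i k hik u (c.s2 hu) w hw]
  constructor
  · rintro (e | e)
    · exact absurd e.1.symm (c.n12 c.a1 hu)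
    · exact e
  · exact Or.inr

/-- the hole through the corners `a` -/
theorem adj11 {u w : V} (hu : u ∈ R1) (hw : w ∈ T1) : G.Adj u w ↔ u = a i ∧ w = a j :=
  c.adj1k c.ij hu (c.swap.s1 hw)

theorem adj22 {u w : V} (hu : u ∈ R2) (hw : w ∈ T2) : G.Adj u w ↔ u = b i ∧ w = b j :=
  c.adj2k c.ij hu (c.swap.s2 hw)

theorem adj12 {u w : V} (hu : u ∈ R1) (hw : w ∈ T2) : ¬ G.Adj u w := by
  rw [c.adj1k c.ij hu (c.swap.s2 hw)]
  rintro ⟨_, e⟩
  exact c.swap.n12 c.swap.a1 hw e.symm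

theorem adj21 {u w : V} (hu : u ∈ R2) (hw : w ∈ T1) : ¬ G.Adj u w := by
  rw [c.adj2k c.ij hu (c.swap.s1 hw)]
  rintro ⟨_, e⟩
  exact c.swap.n12 hw c.swap.b2 e

/-- first type of prism -/
theorem caseE (hEVN : T_EVN) (hH : NOH G) (hN : NOP G) (hev : ∀ s, Even (n s))
    (hik : i ≠ k) (hjk : j ≠ k) (hal : Even al) : False := by
  have hal1 : Odd al1 := by
    have h1 := hev i
    rw [← c.len] at h1
    rw [← Nat.not_even_iff_odd]
    intro h2
    have h3 : Even (al + al1) := hal.add h2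
    exact (Nat.even_add_one.1 h1) h3
  have p2 : IP G (l + be1 + 1) d (b j) (R ∪ T2) := by
    refine c.ipR.append c.jp2 ?_ ?_
    · rw [Set.disjoint_left]
      intro u hu hw
      exact c.nR hu (c.swap.s2 hw) rfl
    · intro r hr w hw
      exact c.swap.adjR2 hr hw
  have p3 : IP G (al + n k + 1) g (b k) (R1 ∪ P k) := by
    refine c.ip1.rev.append (c.pr.ip k) ?_ ?_
    · rw [Set.disjoint_left]
      intro u hu hw
      exact hik (c.pr.rung (c.s1 hu) hw)
    · intro r hr w hw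
      exact c.adj1k hik hr hw
  have hpr := mk3 c.ip2 p2 p3 hal1.pos (by omega) (by omega)
    (by
      rw [Set.disjoint_left]
      rintro u hu (hw | hw)
      · exact c.nR hw (c.s2 hu) rfl
      · exact c.ij (c.pr.rung (c.s2 hu) (c.swap.s2 hw)))
    (by
      rw [Set.disjoint_left]
      rintro u hu (hw | hw)
      · exact c.n12 hw hu rfl
      · exact hik (c.pr.rung (c.s2 hu) hw))
    (by
      rw [Set.disjoint_left]
      rintro u (hu | hu) (hw | hw)
      · exact c.nR hu (c.s1 hw) rfl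
      · exact c.nR hu hw rfl
      · exact c.ij (c.pr.rung (c.s1 hw) (c.swap.s2 hu))
      · exact hjk (c.pr.rung (c.swap.s2 hu) hw))
    (by
      rintro u hu v (hv | hv)
      · rw [SimpleGraph.adj_comm, c.adjR2 hv hu]
        constructor
        · rintro ⟨e1, e2⟩
          exact Or.inl ⟨e2, e1⟩
        · rintro (⟨e1, e2⟩ | ⟨e1, e2⟩)
          · exact ⟨e2, e1⟩
          · exact absurd e2 (c.nR hv (c.pr.b_mem j))
      · rw [c.adj22 hu hv]
        constructor
        · exact Or.inr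
        · rintro (⟨e1, e2⟩ | e)
          · exact absurd e2.symm (c.nR c.ipR.left_mem (c.swap.s2 hv))
          · exact e)
    (by
      rintro u hu v (hv | hv)
      · rw [SimpleGraph.adj_comm, c.xe v hv u hu]
        constructor
        · rintro ⟨e1, e2⟩
          exact Or.inl ⟨e2, e1⟩
        · rintro (⟨e1, e2⟩ | ⟨e1, e2⟩)
          · exact ⟨e2, e1⟩
          · exact absurd e2 (c.pr.ne_of_mem hik (c.s1 hv) (c.pr.b_mem k))
      · rw [c.adj2k hik hu hv]
        constructor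
        · exact Or.inr
        · rintro (⟨e1, e2⟩ | e)
          · exact absurd e2.symm (c.pr.ne_of_mem hik (c.s1 c.ip1.right_mem) hv)
          · exact e)
    (by
      rintro u (hu | hu) v (hv | hv)
      · rw [c.adjR1 hu hv]
        constructor
        · exact Or.inl
        · rintro (e | ⟨e1, e2⟩)
          · exact e
          · exact absurd e1 (c.nR hu (c.pr.b_mem j))
      · constructor
        · intro hA
          exact absurd hA (c.adjRk hik hjk hu hv)
        · rintro (⟨e1, e2⟩ | ⟨e1, e2⟩)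
          · exact absurd e2.symm (c.pr.ne_of_mem hik (c.s1 c.ip1.right_mem) hv)
          · exact absurd e1 (c.nR hu (c.pr.b_mem j))
      · constructor
        · intro hA
          exact absurd hA.symm (c.adj12 hv hu)
        · rintro (⟨e1, e2⟩ | ⟨e1, e2⟩)
          · exact absurd e1.symm (c.nR c.ipR.left_mem (c.swap.s2 hu))
          · exact absurd e2 (c.pr.ne_of_mem hik (c.s1 hv) (c.pr.b_mem k))
      · rw [c.swap.adj2k hjk hu hv]
        constructor
        · exact Or.inr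
        · rintro (⟨e1, e2⟩ | e)
          · exact absurd e2.symm (c.pr.ne_of_mem hik (c.s1 c.ip1.right_mem) hv)
          · exact e)
  have hpar := (hEVN V G _ _ _ _ hH hpr).1
  have h01 : Even (al1 + (l + be1 + 1)) := hpar 0 1
  have hodd3 : Odd (al + n k + 1) := (hal.add (hev k)).add_one
  have hodd2 : Odd (l + be1 + 1) := by
    rw [← Nat.not_even_iff_odd]
    intro h2
    have h3 := (Nat.even_add.1 h01).2 h2
    exact (Nat.not_even_iff_odd.2 hal1) h3
  exact hN.mk3 hpr ⟨hal1, hodd2, hodd3⟩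

/-- second type of prism -/
theorem caseO (hHOL : T_HOL) (hH : NOH G) (hN : NOP G) (hev : ∀ s, Even (n s))
    (hal : Odd al) (hbe : Odd be) : False := by
  have hal1 : Even al1 := by
    have h1 := hev i
    rw [← c.len] at h1
    rw [← Nat.not_odd_iff_even]
    intro h2
    exact (Nat.even_add_one.1 h1) (hal.add_odd h2)
  have hbe1 : Even be1 := by
    have h1 := hev j
    rw [← c.lenj] at h1
    rw [← Nat.not_odd_iff_even]
    intro h2
    exact (Nat.even_add_one.1 h1) (hbe.add_odd h2)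
  have q1 : IP G (al + be + 1) g h (R1 ∪ T1) := by
    refine c.ip1.rev.append c.jp1 ?_ ?_
    · rw [Set.disjoint_left]
      intro u hu hw
      exact c.ij (c.pr.rung (c.s1 hu) (c.swap.s1 hw))
    · intro r hr w hw
      exact c.adj11 hr hw
  have q2 : IP G (al1 + be1 + 1) g' h' (R2 ∪ T2) := by
    refine c.ip2.append c.jp2.rev ?_ ?_
    · rw [Set.disjoint_left]
      intro u hu hw
      exact c.ij (c.pr.rung (c.s2 hu) (c.swap.s2 hw))
    · intro r hr w hw
      exact c.adj22 hr hw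
  have dR1 : Disjoint R (R1 ∪ T1) := by
    rw [Set.disjoint_left]
    rintro u hu (hw | hw)
    · exact c.nR hu (c.s1 hw) rfl
    · exact c.nR hu (c.swap.s1 hw) rfl
  have dR2 : Disjoint R (R2 ∪ T2) := by
    rw [Set.disjoint_left]
    rintro u hu (hw | hw)
    · exact c.nR hu (c.s2 hw) rfl
    · exact c.nR hu (c.swap.s2 hw) rfl
  have x12 : ∀ u ∈ R, ∀ v ∈ R1 ∪ T1, G.Adj u v ↔ (u = d ∧ v = g) ∨ (u = d' ∧ v = h) := by
    rintro u hu v (hv | hv)
    · rw [c.adjR1 hu hv]
      constructor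
      · exact Or.inl
      · rintro (e | ⟨e1, e2⟩)
        · exact e
        · exact absurd e2 (c.pr.ne_of_mem c.ij (c.s1 hv) (c.swap.s1 c.jp1.right_mem))
    · rw [c.swap.adjR1 hu hv]
      constructor
      · exact Or.inr
      · rintro (⟨e1, e2⟩ | e)
        · exact absurd e2.symm (c.pr.ne_of_mem c.ij (c.s1 c.ip1.right_mem) (c.swap.s1 hv))
        · exact e
  have x13 : ∀ u ∈ R, ∀ v ∈ R2 ∪ T2, G.Adj u v ↔ (u = d ∧ v = g') ∨ (u = d' ∧ v = h') := by
    rintro u hu v (hv | hv)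
    · rw [c.adjR2 hu hv]
      constructor
      · exact Or.inl
      · rintro (e | ⟨e1, e2⟩)
        · exact e
        · exact absurd e2 (c.pr.ne_of_mem c.ij (c.s2 hv) (c.swap.s2 c.jp2.left_mem))
    · rw [c.swap.adjR2 hu hv]
      constructor
      · exact Or.inr
      · rintro (⟨e1, e2⟩ | e)
        · exact absurd e2.symm (c.pr.ne_of_mem c.ij (c.s2 c.ip2.left_mem) (c.swap.s2 hv))
        · exact e
  have hl : Odd l := by
    have h1 := hHOL V G l (al + be + 1) d d' g h R (R1 ∪ T1) hH c.ipR q1 dR1 x12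
      (by have := hal.pos; omega)
    have h2 : Odd (al + be + 1) := (hal.add_odd hbe).add_one
    rw [← Nat.not_even_iff_odd]
    intro h3
    exact (Nat.not_even_iff_odd.2 h2) ((Nat.even_add.1 h1).1 h3)
  have hpr := mk3 c.ipR q1 q2 hl.pos (by omega) (by omega) dR1 dR2
    (by
      rw [Set.disjoint_left]
      rintro u (hu | hu) (hw | hw)
      · exact c.n12 hu hw rfl
      · exact c.ij (c.pr.rung (c.s1 hu) (c.swap.s2 hw))
      · exact c.ij (c.pr.rung (c.s2 hw) (c.swap.s1 hu))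
      · exact c.swap.n12 hu hw rfl)
    x12 x13
    (by
      rintro u (hu | hu) v (hv | hv)
      · rw [c.xe u hu v hv]
        constructor
        · exact Or.inl
        · rintro (e | ⟨e1, e2⟩)
          · exact e
          · exact absurd e1 (c.pr.ne_of_mem c.ij (c.s1 hu) (c.swap.s1 c.jp1.right_mem))
      · constructor
        · intro hA
          exact absurd hA (c.adj12 hu hv)
        · rintro (⟨e1, e2⟩ | ⟨e1, e2⟩)
          · exact absurd e2.symm (c.pr.ne_of_mem c.ij (c.s2 c.ip2.left_mem) (c.swap.s2 hv))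
          · exact absurd e1 (c.pr.ne_of_mem c.ij (c.s1 hu) (c.swap.s1 c.jp1.right_mem))
      · constructor
        · intro hA
          exact absurd hA.symm (c.adj21 hv hu)
        · rintro (⟨e1, e2⟩ | ⟨e1, e2⟩)
          · exact absurd e1.symm (c.pr.ne_of_mem c.ij (c.s1 c.ip1.right_mem) (c.swap.s1 hu))
          · exact absurd e2 (c.pr.ne_of_mem c.ij (c.s2 hv) (c.swap.s2 c.jp2.left_mem))
      · rw [c.xej u hu v hv]
        constructor
        · exact Or.inr
        · rintro (⟨e1, e2⟩ | e)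
          · exact absurd e1.symm (c.pr.ne_of_mem c.ij (c.s1 c.ip1.right_mem) (c.swap.s1 hu))
          · exact e)
  exact hN.mk3 hpr ⟨hl, (hal.add_odd hbe).add_one, (hal1.add hbe1).add_one⟩

end Cf

theorem third : ∀ i j : Fin 3, ∃ k : Fin 3, i ≠ k ∧ j ≠ k := by decide

/-- attachments to an even prism: two adjacent pairs -/
theorem pf_PLB (hHOL : T_HOL) (hEVN : T_EVN) : T_PLB := by
  intro V G a b n P i j l d d' g g' h h' R hH hN hE hij hC hA hB
  exfalso
  obtain ⟨al, al1, R1, R2, i1, i2, i3, i4, i5, i6, i7⟩ := hA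
  obtain ⟨be, be1, T1, T2, j1, j2, j3, j4, j5, j6, j7⟩ := hB
  have c : Cf G a b n P i j l d d' R al al1 g g' R1 R2 be be1 h h' T1 T2 :=
    ⟨hE.1, hij, hC.1, hC.2.1, hC.2.2, i1, i2, i3, i4, i5, i6, i7, j1, j2, j3, j4, j5, j6, j7⟩
  obtain ⟨k, hik, hjk⟩ := third i j
  rcases Nat.even_or_odd al with hal | hal
  · exact c.caseE hEVN hH hN hE.2 hik hjk hal
  · rcases Nat.even_or_odd be with hbe | hbe
    · exact c.swap.caseE hEVN hH hN hE.2 hjk hik hbe
    · exact c.caseO hHOL hH hN hE.2 hal hbe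

end Pool.Agent.H74.ER
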